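import Pool.Agent.H798.BV.Stm3

set_option autoImplicit false

/-!
# (REALQ): the lower bound of the exponent, all dual exponents

The plan (and the small lemmas on means and on one complex number) is that of helper105's
`Pool/Agent/H105/BV/Real.lean` (the case `2 < p ≤ 3`, `s = 2`).
-/

namespace Pool.Agent.H295.BV

open Pool.Agent.H798.BV
open scoped ComplexConjugate

/-! ### Means (as in helper105's file) -/

/-- The mean value. -/
noncomputable def av {m : ℕ} (f : Fin m → ℝ) : ℝ := (∑ k, f k) / m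

lemma av_mono {m : ℕ} {f g : Fin m → ℝ} (h : ∀ k, f k ≤ g k) : av f ≤ av g :=
  div_le_div_of_nonneg_right (Finset.sum_le_sum fun k _ => h k) (Nat.cast_nonneg _)

lemma av_add {m : ℕ} (f g : Fin m → ℝ) : av (fun k => f k + g k) = av f + av g := by
  unfold av
  rw [Finset.sum_add_distrib, add_div]

lemma av_sub {m : ℕ} (f g : Fin m → ℝ) : av (fun k => f k - g k) = av f - av g := by
  unfold av
  rw [Finset.sum_sub_distrib, sub_div]

lemma av_mul {m : ℕ} (c : ℝ) (f : Fin m → ℝ) : av (fun k => c * f k) = c * av f := by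
  unfold av
  rw [← Finset.mul_sum, mul_div_assoc]

lemma av_const {m : ℕ} (hm : 1 ≤ m) (c : ℝ) : av (fun _ : Fin m => c) = c := by
  unfold av
  have : (m : ℝ) ≠ 0 := by positivity
  rw [Finset.sum_const, Finset.card_univ, Fintype.card_fin, nsmul_eq_mul]
  field_simp

lemma av_nonneg {m : ℕ} {f : Fin m → ℝ} (h : ∀ k, 0 ≤ f k) : 0 ≤ av f :=
  div_nonneg (Finset.sum_nonneg fun k _ => h k) (Nat.cast_nonneg _)

lemma av_cs {m : ℕ} {f g : Fin m → ℝ} (hf : ∀ k, 0 ≤ f k) (hg : ∀ k, 0 ≤ g k) :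
    av (fun k => √(f k) * √(g k)) ≤ √(av f) * √(av g) := by
  unfold av
  rw [Real.sqrt_div (Finset.sum_nonneg fun k _ => hf k), Real.sqrt_div (Finset.sum_nonneg fun k _ => hg k),
    div_mul_div_comm, Real.mul_self_sqrt (Nat.cast_nonneg _)]
  exact div_le_div_of_nonneg_right (Real.sum_sqrt_mul_sqrt_le Finset.univ hf hg) (Nat.cast_nonneg _)

lemma av_sqrt {m : ℕ} (hm : 1 ≤ m) {f : Fin m → ℝ} (hf : ∀ k, 0 ≤ f k) :
    av (fun k => √(f k)) ≤ √(av f) := by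
  have h := av_cs (g := fun _ : Fin m => (1 : ℝ)) hf (fun _ => zero_le_one)
  rw [av_const hm] at h
  simpa using h

lemma norm_sum_div_le {m : ℕ} (f : Fin m → ℂ) (g : Fin m → ℝ) (h : ∀ k, ‖f k‖ ≤ g k) :
    ‖∑ k, f k‖ / m ≤ av g :=
  div_le_div_of_nonneg_right (norm_sum_le_of_le _ fun k _ => h k) (Nat.cast_nonneg _)

/-! ### One complex number -/

lemma e_norm {x : ℂ} (hx : x ≠ 0) : ‖x / (‖x‖ : ℂ)‖ = 1 := by
  have h : ‖x‖ ≠ 0 := norm_ne_zero_iff.2 hx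
  rw [norm_div, Complex.norm_real, Real.norm_of_nonneg (norm_nonneg x), div_self h]

lemma e_re {x : ℂ} (hx : x ≠ 0) : |(x / (‖x‖ : ℂ)).re| ≤ 1 :=
  (Complex.abs_re_le_norm _).trans (e_norm hx).le

lemma e_sq_re {x : ℂ} (hx : x ≠ 0) : ((x / (‖x‖ : ℂ)) ^ 2).re = 2 * (x / (‖x‖ : ℂ)).re ^ 2 - 1 := by
  have h := Complex.sq_norm (x / (‖x‖ : ℂ))
  rw [e_norm hx, Complex.normSq_apply] at h
  rw [sq, Complex.mul_re]
  nlinarith

lemma conj_inv {x : ℂ} (hx : x ≠ 0) : conj (x⁻¹) = ((‖x‖⁻¹ : ℝ) : ℂ) * (x / (‖x‖ : ℂ)) := by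
  have h : (‖x‖ : ℂ) ≠ 0 := by
    exact_mod_cast norm_ne_zero_iff.2 hx
  have h2 : (starRingEnd ℂ) x ≠ 0 := by simpa using hx
  have h1 : x * (starRingEnd ℂ) x = (‖x‖ : ℂ) ^ 2 := Complex.mul_conj' x
  rw [map_inv₀, Complex.ofReal_inv]
  field_simp
  rw [mul_comm]
  exact h1.symm

lemma inv_sq_re {x : ℂ} (hx : x ≠ 0) :
    ((x⁻¹) ^ 2).re = (‖x‖ ^ 2)⁻¹ * (2 * (x / (‖x‖ : ℂ)).re ^ 2 - 1) := by
  rw [← Complex.conj_re, map_pow, conj_inv hx, mul_pow, ← Complex.ofReal_pow, Complex.re_ofReal_mul,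
    e_sq_re hx, inv_pow]

lemma chi_eq {x : ℂ} (hx : x ≠ 0) (p : ℝ) :
    chi p x = ((‖x‖ ^ (p - 1) : ℝ) : ℂ) * (x / (‖x‖ : ℂ)) := by
  have h0 : 0 < ‖x‖ := norm_pos_iff.2 hx
  have h : (‖x‖ : ℂ) ≠ 0 := by exact_mod_cast h0.ne'
  have h1 : ‖x‖ ^ (p - 1) = ‖x‖ ^ (p - 2) * ‖x‖ := by
    rw [← Real.rpow_add_one h0.ne']
    congr 1
    ring
  unfold chi
  rw [h1, Complex.ofReal_mul]
  field_simp

lemma norm_chi_le {p : ℝ} (hp : 1 < p) {x : ℂ} (hx : ‖x‖ ≤ 1) : ‖chi p x‖ ≤ 1 := by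
  rcases eq_or_ne x 0 with h | h
  · rw [h]
    unfold chi
    rw [mul_zero, norm_zero]
    exact zero_le_one
  · rw [chi_eq h, norm_mul, e_norm h, mul_one, Complex.norm_real,
      Real.norm_of_nonneg (Real.rpow_nonneg (norm_nonneg _) _)]
    exact Real.rpow_le_one (norm_nonneg _) hx (by linarith)

/-- The coefficient of `a` in the expansion. -/
noncomputable def E (p : ℝ) (x : ℂ) : ℂ := (p / 2 : ℝ) + ((p - 2) / 2 : ℝ) * (x / ‖x‖) ^ 2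

lemma E_norm {p : ℝ} (hp : 1 < p) {x : ℂ} (hx : x ≠ 0) : ‖E p x‖ ≤ p / 2 + |p - 2| / 2 := by
  unfold E
  refine (norm_add_le _ _).trans ?_
  rw [norm_mul, norm_pow, e_norm hx, Complex.norm_real, Complex.norm_real,
    Real.norm_of_nonneg (by linarith), Real.norm_eq_abs, abs_div, abs_two]
  linarith

lemma E_re {p : ℝ} {x : ℂ} (hx : x ≠ 0) :
    (E p x).re = 1 + (p - 2) * (x / (‖x‖ : ℂ)).re ^ 2 := by
  unfold E
  rw [Complex.add_re, Complex.ofReal_re, Complex.re_ofReal_mul, e_sq_re hx]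
  ring

/-- The pointwise bound of `D = χ(x) - a E(x)` against `- χ(a - x)`. -/
lemma D_bound {p s a K1 K2 T : ℝ} {x : ℂ} (hp : 1 < p) (ha0 : 0 ≤ a) (ha1 : a ≤ 1 / 4)
    (hx : x ≠ 0) (hK1 : 0 < K1) (hK2 : 0 < K2) (hT : 0 ≤ T)
    (h1 : ‖x‖ < 1 / 2 ∨ 2 < ‖x‖ → 1 + ‖x‖ ^ p + ‖x‖⁻¹ ^ s ≤ K1 * T)
    (h2 : 1 / 2 ≤ ‖x‖ → |‖x‖ ^ (p - 2) - 1| ≤ K1 * (T + √T))
    (h3 : 1 / 2 ≤ ‖x‖ → ‖chi p ((a : ℂ) - x) + chi p x
        - (a : ℂ) * (‖x‖ ^ (p - 2) : ℝ) * ((p / 2 : ℝ) + ((p - 2) / 2 : ℝ) * (x / ‖x‖) ^ 2)‖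
      ≤ K2 * (a ^ 2 * (1 + ‖x‖ ^ p))) :
    ‖chi p x - a * E p x + chi p ((a : ℂ) - x)‖ ≤
      K2 * a ^ 2 * (1 + ‖x‖ ^ p) + a * (p / 2 + |p - 2| / 2) * K1 * (T + √T)
        + (2 + (p / 2 + |p - 2| / 2)) * K1 * T := by
  obtain ⟨C, hC⟩ : ∃ C : ℝ, C = p / 2 + |p - 2| / 2 := ⟨_, rfl⟩
  have hC0 : 0 ≤ C := by rw [hC]; positivity
  have hE : ‖E p x‖ ≤ C := by rw [hC]; exact E_norm hp hx
  rw [← hC]
  have hr : 0 ≤ ‖x‖ ^ p := Real.rpow_nonneg (norm_nonneg _) _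
  rcases le_or_gt (1 / 2) ‖x‖ with h | h
  · have e : chi p x - a * E p x + chi p ((a : ℂ) - x) =
        (chi p ((a : ℂ) - x) + chi p x - (a : ℂ) * (‖x‖ ^ (p - 2) : ℝ) *
          ((p / 2 : ℝ) + ((p - 2) / 2 : ℝ) * (x / ‖x‖) ^ 2)) +
        (a : ℂ) * ((‖x‖ ^ (p - 2) - 1 : ℝ) : ℂ) * E p x := by
      unfold E
      push_cast
      ring
    rw [e]
    refine (norm_add_le _ _).trans ?_
    have h4 := h3 h
    have h5 : ‖(a : ℂ) * ((‖x‖ ^ (p - 2) - 1 : ℝ) : ℂ) * E p x‖ ≤ a * C * K1 * (T + √T) := by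
      rw [norm_mul, norm_mul, Complex.norm_real, Complex.norm_real, Real.norm_of_nonneg ha0,
        Real.norm_eq_abs]
      calc a * |‖x‖ ^ (p - 2) - 1| * ‖E p x‖ ≤ a * (K1 * (T + √T)) * C := by
            apply mul_le_mul (mul_le_mul_of_nonneg_left (h2 h) ha0) hE (norm_nonneg _)
            positivity
        _ = _ := by ring
    have h6 : 0 ≤ (2 + C) * K1 * T := by positivity
    linarith
  · have h4 : 1 ≤ K1 * T := by
      have := h1 (Or.inl h)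
      have h5 : 0 ≤ ‖x‖⁻¹ ^ s := Real.rpow_nonneg (inv_nonneg.2 (norm_nonneg _)) _
      linarith
    have h5 : ‖chi p x - a * E p x + chi p ((a : ℂ) - x)‖ ≤ 2 + C := by
      have h6 : ‖chi p x‖ ≤ 1 := norm_chi_le hp (by linarith)
      have h7 : ‖chi p ((a : ℂ) - x)‖ ≤ 1 := by
        apply norm_chi_le hp
        refine (norm_sub_le _ _).trans ?_
        rw [Complex.norm_real, Real.norm_of_nonneg ha0]
        linarith
      have h8 : ‖(a : ℂ) * E p x‖ ≤ C := by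
        rw [norm_mul, Complex.norm_real, Real.norm_of_nonneg ha0]
        calc a * ‖E p x‖ ≤ 1 * C := mul_le_mul (by linarith) hE (norm_nonneg _) zero_le_one
          _ = C := one_mul _
      have h9 := norm_add_le (chi p x - a * E p x) (chi p ((a : ℂ) - x))
      have h10 := norm_sub_le (chi p x) (a * E p x)
      linarith
    have h6 : (2 + C) * 1 ≤ (2 + C) * (K1 * T) := mul_le_mul_of_nonneg_left h4 (by linarith)
    have h7 : 0 ≤ K2 * a ^ 2 * (1 + ‖x‖ ^ p) + a * C * K1 * (T + √T) := by positivity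
    linarith

/-! ### The estimates for one family -/

lemma core {p s a K1 K2 K3 K₀ δ c2 κ q : ℝ} {m : ℕ} (hm : 1 ≤ m) (x : Fin m → ℂ)
    (hx0 : ∀ k, x k ≠ 0) (hp : 1 < p) (ha0 : 0 ≤ a) (ha1 : a ≤ 1 / 4)
    (hδ1 : δ ≤ 1) (haδ : a ≤ δ) (T : Fin m → ℝ) (hT0 : ∀ k, 0 ≤ T k) (hTm : av T ≤ κ * a ^ 2)
    (hκ0 : 0 ≤ κ) (hκ3 : κ ≤ K3) (hc2 : 0 ≤ c2) (hK1 : 0 < K1) (hK2 : 0 < K2) (hK₀ : 0 < K₀)
    (hq : q = av (fun k => (x k / (‖x k‖ : ℂ)).re ^ 2))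
    (hR : av (fun k => ‖x k‖ ^ p) ≤ 1 + κ * a ^ 2)
    (hA : ∀ k, ‖x k‖ < 1 / 2 ∨ 2 < ‖x k‖ → 1 + ‖x k‖ ^ p + ‖x k‖⁻¹ ^ s ≤ K1 * T k)
    (hB : ∀ k, 1 / 2 ≤ ‖x k‖ → |‖x k‖ ^ (p - 2) - 1| ≤ K1 * (T k + √(T k)))
    (hC : ∀ k, 1 / 2 ≤ ‖x k‖ → |(‖x k‖ ^ 2)⁻¹ - 1| ≤ K1 * (T k + √(T k)))
    (hD : ∀ k, |‖x k‖ ^ (p - 1) - ‖x k‖⁻¹| ≤ √(c2 * T k) + K1 * T k)
    (hX : ∀ k, 1 / 2 ≤ ‖x k‖ → ‖chi p ((a : ℂ) - x k) + chi p (x k)
        - (a : ℂ) * (‖x k‖ ^ (p - 2) : ℝ) * ((p / 2 : ℝ) + ((p - 2) / 2 : ℝ) * (x k / ‖x k‖) ^ 2)‖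
      ≤ K2 * (a ^ 2 * (1 + ‖x k‖ ^ p)))
    (hY : ‖∑ k, chi p ((a : ℂ) - x k)‖ ≤ K₀ * (m * (a * δ))) :
    ‖(∑ k, (x k)⁻¹) / m‖ ≤
      ((K2 * (2 + K3) + (p / 2 + |p - 2| / 2) * K1 * (2 * K3 + 1)
        + (2 + (p / 2 + |p - 2| / 2)) * K1 * K3) + K₀ + (p / 2 + |p - 2| / 2) + √c2 * √K3
        + K1 * K3) * a ∧
    a * (1 + (p - 2) * q - √c2 * √κ * √q
      - ((K2 * (2 + K3) + (p / 2 + |p - 2| / 2) * K1 * (2 * K3 + 1)
        + (2 + (p / 2 + |p - 2| / 2)) * K1 * K3) + K₀ + K1 * K3) * δ) ≤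
      ((∑ k, (x k)⁻¹) / m).re ∧
    2 * q - 1 - K1 * (2 * K3 + 1) * a ≤
      ((∑ k, (if 2 < ‖(x k)⁻¹‖ then 0 else ((x k)⁻¹) ^ 2)) / m).re ∧
    ∑ k, (if 2 < ‖(x k)⁻¹‖ then ‖(x k)⁻¹‖ ^ s else 0) ≤ K1 * K3 * (a ^ 2 * m) := by
  have hm0 : (0 : ℝ) < m := by exact_mod_cast hm
  have hK30 : 0 ≤ K3 := hκ0.trans hκ3
  obtain ⟨C, hCd⟩ : ∃ C : ℝ, C = p / 2 + |p - 2| / 2 := ⟨_, rfl⟩
  have hC0 : 0 ≤ C := by rw [hCd]; positivity
  obtain ⟨c, hc⟩ : ∃ c : Fin m → ℝ, ∀ k, c k = (x k / (‖x k‖ : ℂ)).re := ⟨_, fun k => rfl⟩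
  have hc1 : ∀ k, |c k| ≤ 1 := fun k => by rw [hc]; exact e_re (hx0 k)
  have hcsq : ∀ k, c k ^ 2 ≤ 1 := fun k => by
    have := hc1 k
    rw [abs_le] at this
    nlinarith
  have hq' : q = av (fun k => c k ^ 2) := by
    rw [hq]
    congr 1
    funext k
    rw [hc]
  have hq0 : 0 ≤ q := by rw [hq']; exact av_nonneg fun k => sq_nonneg _
  -- the mean of `T`
  have haa : a ^ 2 ≤ a := by nlinarith
  have haad : a ^ 2 ≤ a * δ := by nlinarith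
  have hT3 : av T ≤ K3 * a ^ 2 := hTm.trans (mul_le_mul_of_nonneg_right hκ3 (by positivity))
  have hTn : 0 ≤ av T := av_nonneg hT0
  obtain ⟨sT, hsT⟩ : ∃ sT : ℝ, sT = √(av T) := ⟨_, rfl⟩
  have hsT0 : 0 ≤ sT := by rw [hsT]; exact Real.sqrt_nonneg _
  have hs1 : sT ≤ √κ * a := by
    rw [hsT, Real.sqrt_le_iff]
    refine ⟨by positivity, hTm.trans ?_⟩
    rw [mul_pow, Real.sq_sqrt hκ0]
  have hs2 : sT ≤ √K3 * a := hs1.trans (mul_le_mul_of_nonneg_right (Real.sqrt_le_sqrt hκ3) ha0)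
  have hsK3 : √K3 ≤ 1 + K3 := by
    rw [Real.sqrt_le_iff]
    exact ⟨by linarith, by nlinarith⟩
  have hsq : av (fun k => √(T k)) ≤ sT := by
    rw [hsT]
    exact av_sqrt hm hT0
  have hTT : av (fun k => T k + √(T k)) ≤ (2 * K3 + 1) * a := by
    rw [av_add]
    have h1 : K3 * a ^ 2 ≤ K3 * a := mul_le_mul_of_nonneg_left haa hK30
    have h2 : √K3 * a ≤ (1 + K3) * a := mul_le_mul_of_nonneg_right hsK3 ha0
    linarith
  have hsc0 : 0 ≤ √c2 := Real.sqrt_nonneg _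
  have hD' : ∀ k, |‖x k‖ ^ (p - 1) - ‖x k‖⁻¹| ≤ √c2 * √(T k) + K1 * T k := fun k => by
    have := hD k
    rwa [Real.sqrt_mul hc2] at this
  have hK1T : K1 * av T ≤ K1 * K3 * a ^ 2 := by
    calc K1 * av T ≤ K1 * (K3 * a ^ 2) := mul_le_mul_of_nonneg_left hT3 hK1.le
      _ = _ := by ring
  have hb3 : av (fun k => |‖x k‖ ^ (p - 1) - ‖x k‖⁻¹|) ≤ √c2 * √K3 * a + K1 * K3 * a ^ 2 := by
    refine (av_mono hD').trans ?_
    rw [av_add, av_mul, av_mul]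
    have h1 : √c2 * av (fun k => √(T k)) ≤ √c2 * (√K3 * a) :=
      mul_le_mul_of_nonneg_left (hsq.trans hs2) hsc0
    linarith
  have hb4 : av (fun k => |‖x k‖ ^ (p - 1) - ‖x k‖⁻¹| * |c k|) ≤
      √c2 * √κ * a * √q + K1 * K3 * a ^ 2 := by
    have h1 : ∀ k, |‖x k‖ ^ (p - 1) - ‖x k‖⁻¹| * |c k| ≤
        √c2 * (√(T k) * √(c k ^ 2)) + K1 * T k := by
      intro k
      rw [Real.sqrt_sq_eq_abs]
      have h2 := mul_le_mul_of_nonneg_right (hD' k) (abs_nonneg (c k))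
      have h3 : K1 * T k * |c k| ≤ K1 * T k * 1 :=
        mul_le_mul_of_nonneg_left (hc1 k) (mul_nonneg hK1.le (hT0 k))
      calc |‖x k‖ ^ (p - 1) - ‖x k‖⁻¹| * |c k| ≤ (√c2 * √(T k) + K1 * T k) * |c k| := h2
        _ = √c2 * (√(T k) * |c k|) + K1 * T k * |c k| := by ring
        _ ≤ _ := by linarith
    refine (av_mono h1).trans ?_
    rw [av_add, av_mul, av_mul]
    have h2 : av (fun k => √(T k) * √(c k ^ 2)) ≤ sT * √q := by
      rw [hsT, hq']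
      exact av_cs hT0 (fun k => sq_nonneg _)
    have h3 : √c2 * av (fun k => √(T k) * √(c k ^ 2)) ≤ √c2 * (√κ * a * √q) := by
      apply mul_le_mul_of_nonneg_left _ hsc0
      exact h2.trans (mul_le_mul_of_nonneg_right hs1 (Real.sqrt_nonneg _))
    linarith
  -- the sum of the `D k`
  obtain ⟨D, hDd⟩ : ∃ D : Fin m → ℂ, ∀ k, D k = chi p (x k) - a * E p (x k) := ⟨_, fun k => rfl⟩
  obtain ⟨C4, hC4⟩ : ∃ C4 : ℝ, C4 = K2 * (2 + K3) + C * K1 * (2 * K3 + 1) + (2 + C) * K1 * K3 :=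
    ⟨_, rfl⟩
  have hC40 : 0 ≤ C4 := by rw [hC4]; positivity
  have hDY : ‖∑ k, (D k + chi p ((a : ℂ) - x k))‖ / m ≤ C4 * a ^ 2 := by
    have h1 : ∀ k, ‖D k + chi p ((a : ℂ) - x k)‖ ≤
        K2 * a ^ 2 * (1 + ‖x k‖ ^ p) + a * C * K1 * (T k + √(T k)) + (2 + C) * K1 * T k := by
      intro k
      rw [hDd, hCd]
      exact D_bound hp ha0 ha1 (hx0 k) hK1 hK2 (hT0 k) (hA k) (hB k) (hX k)
    refine (norm_sum_div_le _ _ h1).trans ?_
    rw [av_add, av_add, av_mul, av_mul, av_mul, av_add, av_const hm]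
    have h2 : K2 * a ^ 2 * (1 + av (fun k => ‖x k‖ ^ p)) ≤ K2 * a ^ 2 * (2 + K3) := by
      apply mul_le_mul_of_nonneg_left _ (by positivity)
      have h3 : κ * a ^ 2 ≤ K3 * 1 := mul_le_mul hκ3 (by nlinarith) (by positivity) hK30
      linarith
    have h3 : a * C * K1 * av (fun k => T k + √(T k)) ≤ a * C * K1 * ((2 * K3 + 1) * a) :=
      mul_le_mul_of_nonneg_left hTT (by positivity)
    have h4 : (2 + C) * K1 * av T ≤ (2 + C) * K1 * (K3 * a ^ 2) :=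
      mul_le_mul_of_nonneg_left hT3 (by positivity)
    rw [hC4]
    nlinarith
  have hDs : ‖∑ k, D k‖ / m ≤ (C4 + K₀) * (a * δ) := by
    have e : ∑ k, D k = ∑ k, (D k + chi p ((a : ℂ) - x k)) - ∑ k, chi p ((a : ℂ) - x k) := by
      rw [← Finset.sum_sub_distrib]
      refine Finset.sum_congr rfl fun k _ => ?_
      ring
    have h1 : ‖∑ k, D k‖ ≤ ‖∑ k, (D k + chi p ((a : ℂ) - x k))‖ + ‖∑ k, chi p ((a : ℂ) - x k)‖ := by
      rw [e]
      exact norm_sub_le _ _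
    have h2 := div_le_div_of_nonneg_right h1 hm0.le
    rw [add_div] at h2
    have h3 : ‖∑ k, chi p ((a : ℂ) - x k)‖ / m ≤ K₀ * (a * δ) := by
      rw [div_le_iff₀ hm0]
      linarith
    have h4 : C4 * a ^ 2 ≤ C4 * (a * δ) := mul_le_mul_of_nonneg_left haad hC40
    linarith
  have hconj : ∀ k, conj ((x k)⁻¹) = D k + a * E p (x k) -
      ((‖x k‖ ^ (p - 1) - ‖x k‖⁻¹ : ℝ) : ℂ) * (x k / ‖x k‖) := by
    intro k
    rw [hDd, conj_inv (hx0 k), chi_eq (hx0 k), Complex.ofReal_sub]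
    ring
  rw [← hCd, ← hC4]
  refine ⟨?_, ?_, ?_, ?_⟩
  · -- the norm of the mean of the inverses
    have e1 : ‖(∑ k, (x k)⁻¹) / (m : ℂ)‖ = ‖∑ k, conj ((x k)⁻¹)‖ / m := by
      rw [norm_div, Complex.norm_natCast, ← map_sum, RCLike.norm_conj]
    have e2 : ∑ k, conj ((x k)⁻¹) = ∑ k, D k + ∑ k, a * E p (x k) -
        ∑ k, ((‖x k‖ ^ (p - 1) - ‖x k‖⁻¹ : ℝ) : ℂ) * (x k / ‖x k‖) := by
      rw [← Finset.sum_add_distrib, ← Finset.sum_sub_distrib]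
      exact Finset.sum_congr rfl fun k _ => hconj k
    have h3 : ‖∑ k, (a : ℂ) * E p (x k)‖ / m ≤ a * C := by
      have h4 : ∀ k, ‖(a : ℂ) * E p (x k)‖ ≤ a * C := by
        intro k
        rw [norm_mul, Complex.norm_real, Real.norm_of_nonneg ha0, hCd]
        exact mul_le_mul_of_nonneg_left (E_norm hp (hx0 k)) ha0
      refine (norm_sum_div_le _ _ h4).trans ?_
      rw [av_const hm]
    have h8 : ‖∑ k, ((‖x k‖ ^ (p - 1) - ‖x k‖⁻¹ : ℝ) : ℂ) * (x k / ‖x k‖)‖ / m ≤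
        √c2 * √K3 * a + K1 * K3 * a ^ 2 := by
      refine (norm_sum_div_le _ (fun k => |‖x k‖ ^ (p - 1) - ‖x k‖⁻¹|) fun k => ?_).trans hb3
      rw [norm_mul, e_norm (hx0 k), mul_one, Complex.norm_real, Real.norm_eq_abs]
    rw [e1, e2]
    have h9 : ‖∑ k, D k + ∑ k, a * E p (x k) -
        ∑ k, ((‖x k‖ ^ (p - 1) - ‖x k‖⁻¹ : ℝ) : ℂ) * (x k / ‖x k‖)‖ / m ≤
        ‖∑ k, D k‖ / m + ‖∑ k, a * E p (x k)‖ / m +
        ‖∑ k, ((‖x k‖ ^ (p - 1) - ‖x k‖⁻¹ : ℝ) : ℂ) * (x k / ‖x k‖)‖ / m := by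
      rw [← add_div, ← add_div]
      apply div_le_div_of_nonneg_right _ hm0.le
      exact (norm_sub_le _ _).trans (add_le_add (norm_add_le _ _) le_rfl)
    have h10 : (C4 + K₀) * (a * δ) ≤ (C4 + K₀) * a := by
      apply mul_le_mul_of_nonneg_left _ (by positivity)
      nlinarith
    have h11 : K1 * K3 * a ^ 2 ≤ K1 * K3 * a := mul_le_mul_of_nonneg_left haa (by positivity)
    linarith
  · -- the real part of the mean of the inverses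
    have e0 : ∀ k, ((x k)⁻¹).re = (D k).re + a * (1 + (p - 2) * c k ^ 2) -
        (‖x k‖ ^ (p - 1) - ‖x k‖⁻¹) * c k := by
      intro k
      rw [← Complex.conj_re, hconj, Complex.sub_re, Complex.add_re, Complex.re_ofReal_mul,
        Complex.re_ofReal_mul, E_re (hx0 k), hc]
    have e1 : ((∑ k, (x k)⁻¹) / (m : ℂ)).re = (∑ k, D k).re / m + a * (1 + (p - 2) * q) -
        av (fun k => (‖x k‖ ^ (p - 1) - ‖x k‖⁻¹) * c k) := by
      rw [Complex.div_natCast_re, Complex.re_sum, Complex.re_sum]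
      have e2 : (∑ k, ((x k)⁻¹).re) / m = av (fun k => (D k).re + a * (1 + (p - 2) * c k ^ 2) -
        (‖x k‖ ^ (p - 1) - ‖x k‖⁻¹) * c k) := by
        unfold av
        congr 1
        exact Finset.sum_congr rfl fun k _ => e0 k
      rw [e2, av_sub, av_add, av_mul, av_add, av_mul, av_const hm, hq']
      rfl
    have h1 : -((C4 + K₀) * (a * δ)) ≤ (∑ k, D k).re / m := by
      have h2 : -‖∑ k, D k‖ ≤ (∑ k, D k).re := (abs_le.1 (Complex.abs_re_le_norm _)).1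
      have h3 := div_le_div_of_nonneg_right h2 hm0.le
      rw [neg_div] at h3
      linarith
    have h2 : av (fun k => (‖x k‖ ^ (p - 1) - ‖x k‖⁻¹) * c k) ≤
        √c2 * √κ * a * √q + K1 * K3 * a ^ 2 := by
      refine le_trans (av_mono fun k => ?_) hb4
      rw [← abs_mul]
      exact le_abs_self _
    have h3 : K1 * K3 * a ^ 2 ≤ K1 * K3 * (a * δ) := mul_le_mul_of_nonneg_left haad (by positivity)
    rw [e1]
    nlinarith
  · -- the real part of the mean of the truncated squares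
    have h1 : ∀ k, 2 * c k ^ 2 - 1 - K1 * (T k + √(T k)) ≤
        (if 2 < ‖(x k)⁻¹‖ then (0 : ℂ) else ((x k)⁻¹) ^ 2).re := by
      intro k
      have h0 : 0 < ‖x k‖ := norm_pos_iff.2 (hx0 k)
      split_ifs with h
      · rw [norm_inv, lt_inv_comm₀ (by norm_num) h0] at h
        have h2 := hA k (Or.inl (by rw [one_div]; exact h))
        have h3 : 0 ≤ ‖x k‖ ^ p := Real.rpow_nonneg (norm_nonneg _) _
        have h4 : 0 ≤ ‖x k‖⁻¹ ^ s := Real.rpow_nonneg (inv_nonneg.2 (norm_nonneg _)) _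
        have h5 : 0 ≤ K1 * √(T k) := by positivity
        rw [Complex.zero_re]
        linarith [hcsq k]
      · rw [norm_inv, lt_inv_comm₀ (by norm_num) h0, not_lt, ← one_div] at h
        rw [inv_sq_re (hx0 k), ← hc]
        have h2 : |2 * c k ^ 2 - 1| ≤ 1 := by
          rw [abs_le]
          constructor
          · nlinarith [sq_nonneg (c k)]
          · linarith [hcsq k]
        have h3 : -(|(‖x k‖ ^ 2)⁻¹ - 1| * 1) ≤ ((‖x k‖ ^ 2)⁻¹ - 1) * (2 * c k ^ 2 - 1) := by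
          have h4 := neg_abs_le (((‖x k‖ ^ 2)⁻¹ - 1) * (2 * c k ^ 2 - 1))
          rw [abs_mul] at h4
          have h5 := mul_le_mul_of_nonneg_left h2 (abs_nonneg ((‖x k‖ ^ 2)⁻¹ - 1))
          linarith
        have h6 := hC k h
        linarith
    have h2 := av_mono h1
    rw [av_sub, av_sub, av_mul, av_mul, av_const hm, ← hq'] at h2
    have e1 : ((∑ k, (if 2 < ‖(x k)⁻¹‖ then (0 : ℂ) else ((x k)⁻¹) ^ 2)) / (m : ℂ)).re =
        av (fun k => (if 2 < ‖(x k)⁻¹‖ then (0 : ℂ) else ((x k)⁻¹) ^ 2).re) := by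
      unfold av
      rw [Complex.div_natCast_re, Complex.re_sum]
    rw [e1]
    have h3 : K1 * av (fun k => T k + √(T k)) ≤ K1 * ((2 * K3 + 1) * a) :=
      mul_le_mul_of_nonneg_left hTT hK1.le
    linarith
  · -- the large inverses
    have h1 : ∀ k ∈ Finset.univ, (if 2 < ‖(x k)⁻¹‖ then ‖(x k)⁻¹‖ ^ s else 0) ≤ K1 * T k := by
      intro k _
      split_ifs with h
      · rw [norm_inv] at h ⊢
        have h0 : 0 < ‖x k‖ := norm_pos_iff.2 (hx0 k)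
        rw [lt_inv_comm₀ (by norm_num) h0] at h
        have h2 := hA k (Or.inl (by rw [one_div]; exact h))
        have h3 : 0 ≤ ‖x k‖ ^ p := Real.rpow_nonneg (norm_nonneg _) _
        linarith
      · exact mul_nonneg hK1.le (hT0 k)
    refine (Finset.sum_le_sum h1).trans ?_
    rw [← Finset.mul_sum]
    have h2 : ∑ k, T k ≤ K3 * a ^ 2 * m := by
      have h3 := hT3
      unfold av at h3
      rwa [div_le_iff₀ hm0] at h3
    calc K1 * ∑ k, T k ≤ K1 * (K3 * a ^ 2 * m) := mul_le_mul_of_nonneg_left h2 hK1.le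
      _ = _ := by ring

theorem t_REALQ (h1 : S_PTQ) (h2 : S_XPQ) (h3 : S_BR2) : S_REALQ := by
  intro p s hp hs hps K₀ hK₀
  obtain ⟨ε, μ, hε, hμ, hbr⟩ := h3 p s hp hs hps
  obtain ⟨K1, hK1, hP⟩ := h1 p s hp hs ε hε
  obtain ⟨K2, hK2, hX⟩ := h2 p hp
  have hp0 : 0 < p := by linarith
  have hs0 : 0 < s := by linarith
  obtain ⟨K3, hK3⟩ : ∃ K3 : ℝ, K3 = p / 2 * (1 + |p - 2|) + ε := ⟨_, rfl⟩
  have hK30 : 0 < K3 := by rw [hK3]; positivity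
  obtain ⟨c2, hc2⟩ : ∃ c2 : ℝ, c2 = 2 * p / (p + s) + ε := ⟨_, rfl⟩
  have hc20 : 0 ≤ c2 := by rw [hc2]; positivity
  obtain ⟨C, hC⟩ : ∃ C : ℝ, C = p / 2 + |p - 2| / 2 := ⟨_, rfl⟩
  have hC0 : 0 ≤ C := by rw [hC]; positivity
  obtain ⟨C4, hC4⟩ : ∃ C4 : ℝ, C4 = K2 * (2 + K3) + C * K1 * (2 * K3 + 1) + (2 + C) * K1 * K3 :=
    ⟨_, rfl⟩
  have hC40 : 0 ≤ C4 := by rw [hC4]; positivity
  obtain ⟨C7, hC7⟩ : ∃ C7 : ℝ, C7 = (C4 + K₀ + K1 * K3) + K1 * (2 * K3 + 1) := ⟨_, rfl⟩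
  have hC70 : 0 < C7 := by rw [hC7]; positivity
  obtain ⟨β, hβ⟩ : ∃ β : ℝ, β = min p 2 := ⟨_, rfl⟩
  have hβ1 : 0 < β - 1 := by
    have : 1 < β := by rw [hβ]; exact lt_min hp (by norm_num)
    linarith
  have hβ2 : β - 1 ≤ 1 := by
    have : β ≤ 2 := by rw [hβ]; exact min_le_right _ _
    linarith
  have hbase : 0 < μ / (2 * C7) := by positivity
  refine ⟨ε, min (1 / 4) ((μ / (2 * C7)) ^ (1 / (β - 1))), μ / 2,
    C4 + K₀ + C + √c2 * √K3 + K1 * K3, hε,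
    lt_min (by norm_num) (Real.rpow_pos_of_pos hbase _), by positivity, by positivity, ?_⟩
  intro m hm a x ha0 haa hx0 hH1 hH2 hH3
  have hm0 : (0 : ℝ) < m := by exact_mod_cast hm
  have ha1 : a ≤ 1 / 4 := haa.trans (min_le_left _ _)
  have haμ : a ≤ (μ / (2 * C7)) ^ (1 / (β - 1)) := haa.trans (min_le_right _ _)
  obtain ⟨δ, hδ⟩ : ∃ δ : ℝ, δ = a ^ (β - 1) := ⟨_, rfl⟩
  have hδ0 : 0 ≤ δ := by
    rw [hδ]
    exact Real.rpow_nonneg ha0 _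
  have hδ1 : δ ≤ 1 := by
    rw [hδ]
    exact Real.rpow_le_one ha0 (by linarith) hβ1.le
  have haδ : a ≤ δ := by
    rcases ha0.eq_or_lt with h0 | h0
    · rw [← h0]
      exact hδ0
    · rw [hδ]
      calc a = a ^ (1 : ℝ) := (Real.rpow_one a).symm
        _ ≤ a ^ (β - 1) := Real.rpow_le_rpow_of_exponent_ge h0 (by linarith) hβ2
  have hδC : C7 * δ ≤ μ / 2 := by
    have h4 : δ ≤ μ / (2 * C7) := by
      rw [hδ]
      calc a ^ (β - 1) ≤ ((μ / (2 * C7)) ^ (1 / (β - 1))) ^ (β - 1) :=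
            Real.rpow_le_rpow ha0 haμ hβ1.le
        _ = μ / (2 * C7) := by
          rw [← Real.rpow_mul hbase.le, one_div, inv_mul_cancel₀ hβ1.ne', Real.rpow_one]
    rw [le_div_iff₀ (by positivity)] at h4
    linarith
  have hap : a ^ β = a * δ := by
    rcases ha0.eq_or_lt with h0 | h0
    · rw [← h0, Real.zero_rpow (by linarith), zero_mul]
    · rw [hδ, mul_comm, ← Real.rpow_add_one h0.ne']
      congr 1
      ring
  obtain ⟨q, hq⟩ : ∃ q : ℝ, q = (∑ k, ((x k).re / ‖x k‖) ^ 2) / m := ⟨_, rfl⟩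
  have hq' : q = av (fun k => (x k / (‖x k‖ : ℂ)).re ^ 2) := by
    rw [hq]
    unfold av
    congr 1
    refine Finset.sum_congr rfl fun k _ => ?_
    show ((x k).re / ‖x k‖) ^ 2 = (x k / (‖x k‖ : ℂ)).re ^ 2
    rw [Complex.div_ofReal_re]
  have hq0 : 0 ≤ q := by rw [hq']; exact av_nonneg fun k => sq_nonneg _
  have hq1 : q ≤ 1 := by
    rw [hq', ← av_const hm 1]
    refine av_mono fun k => ?_
    have := e_re (hx0 k)
    rw [abs_le] at this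
    nlinarith
  obtain ⟨κ, hκ⟩ : ∃ κ : ℝ, κ = p / 2 * (1 + (p - 2) * q) + ε := ⟨_, rfl⟩
  have hκ0 : 0 ≤ κ := by
    have h4 : 0 ≤ 1 + (p - 2) * q := by nlinarith
    rw [hκ]
    positivity
  have hκ3 : κ ≤ K3 := by
    have h4 : (p - 2) * q ≤ |p - 2| := by
      have h5 := le_abs_self (p - 2)
      have h6 := abs_nonneg (p - 2)
      nlinarith
    rw [hκ, hK3]
    have h5 : p / 2 * (1 + (p - 2) * q) ≤ p / 2 * (1 + |p - 2|) :=
      mul_le_mul_of_nonneg_left (by linarith) (by linarith)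
    linarith
  rw [← hq, ← hκ] at hH1
  rw [← hβ, hap] at hH3
  have hR : av (fun k => ‖x k‖ ^ p) ≤ 1 + κ * a ^ 2 := by
    unfold av
    rw [div_le_iff₀ hm0]
    linarith
  have hTm : av (fun k => Th p s ‖x k‖) ≤ κ * a ^ 2 := by
    unfold av
    rw [div_le_iff₀ hm0]
    have h4 : ∑ k, Th p s ‖x k‖ = (∑ k, ‖x k‖ ^ p - m) + p / s * (∑ k, ‖(x k)⁻¹‖ ^ s - m) := by
      have h5 : ∀ k ∈ Finset.univ, Th p s ‖x k‖ = (‖x k‖ ^ p - 1) + p / s * (‖(x k)⁻¹‖ ^ s - 1) := by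
        intro k _
        unfold Th
        rw [norm_inv]
      rw [Finset.sum_congr rfl h5, Finset.sum_add_distrib, ← Finset.mul_sum, Finset.sum_sub_distrib,
        Finset.sum_sub_distrib]
      simp
    rw [h4]
    have h5 : p / s * (∑ k, ‖(x k)⁻¹‖ ^ s - m) ≤ 0 :=
      mul_nonpos_of_nonneg_of_nonpos (by positivity) (by linarith)
    linarith
  have hPk := fun k => hP ‖x k‖ (norm_pos_iff.2 (hx0 k))
  obtain ⟨r1, r2, r3, r4⟩ := core (s := s) (c2 := c2) hm x hx0 hp ha0 ha1 hδ1 haδ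
    (fun k => Th p s ‖x k‖) (fun k => (hPk k).1) hTm hκ0 hκ3 hc20 hK1 hK2 hK₀ hq' hR
    (fun k => (hPk k).2.1) (fun k => (hPk k).2.2.1) (fun k => (hPk k).2.2.2.1)
    (fun k => by
      have := (hPk k).2.2.2.2.2
      rwa [← hc2] at this)
    (fun k => hX a ha0 ha1 (x k)) hH3
  rw [← hC, ← hC4] at r1 r2
  refine ⟨r1, ?_, ?_⟩
  · intro τ hτ0 hτ1
    have hsq : √q ^ 2 = q := Real.sq_sqrt hq0
    have hsq1 : √q ≤ 1 := by
      rw [Real.sqrt_le_iff]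
      exact ⟨zero_le_one, by linarith⟩
    have hb := hbr (√q) τ (√c2 * √κ) (Real.sqrt_nonneg _) hsq1 hτ0 hτ1 (by positivity) (by
      rw [mul_pow, Real.sq_sqrt hc20, Real.sq_sqrt hκ0, hsq, hc2, hκ])
    rw [hsq] at hb
    have haτ : 0 ≤ a * τ := mul_nonneg ha0 hτ0
    have h4 := mul_le_mul_of_nonneg_left r2 hτ0
    have h5 := mul_le_mul_of_nonneg_left r3 (by positivity : (0:ℝ) ≤ a * τ ^ 2 / 2)
    have h6 : a * τ * μ ≤ a * τ * (1 + (p - 2) * q - √c2 * √κ * √q + τ * (q - 1 / 2)) :=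
      mul_le_mul_of_nonneg_left hb haτ
    have h7 : a * τ * (C7 * δ) ≤ a * τ * (μ / 2) := mul_le_mul_of_nonneg_left hδC haτ
    obtain ⟨C6, hC6⟩ : ∃ C6 : ℝ, C6 = K1 * (2 * K3 + 1) := ⟨_, rfl⟩
    have hC60 : 0 ≤ C6 := by rw [hC6]; positivity
    rw [← hC6] at h5 hC7
    have h8 : a * τ ^ 2 / 2 * (C6 * a) ≤ a * τ * (C6 * δ) := by
      have h9 : τ ^ 2 / 2 ≤ τ := by nlinarith
      have h10 : C6 * a ≤ C6 * δ := mul_le_mul_of_nonneg_left haδ hC60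
      calc a * τ ^ 2 / 2 * (C6 * a) = a * ((τ ^ 2 / 2) * (C6 * a)) := by ring
        _ ≤ a * (τ * (C6 * δ)) := by
          apply mul_le_mul_of_nonneg_left _ ha0
          exact mul_le_mul h9 h10 (by positivity) hτ0
        _ = _ := by ring
    rw [hC7] at h7
    calc μ / 2 * a * τ = a * τ * μ - a * τ * (μ / 2) := by ring
      _ ≤ a * τ * (1 + (p - 2) * q - √c2 * √κ * √q + τ * (q - 1 / 2))
          - a * τ * ((C4 + K₀ + K1 * K3 + C6) * δ) := by linarith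
      _ = τ * (a * (1 + (p - 2) * q - √c2 * √κ * √q - (C4 + K₀ + K1 * K3) * δ))
          + (a * τ ^ 2 / 2 * (2 * q - 1)) - a * τ * (C6 * δ) := by ring
      _ ≤ τ * (a * (1 + (p - 2) * q - √c2 * √κ * √q - (C4 + K₀ + K1 * K3) * δ))
          + (a * τ ^ 2 / 2 * (2 * q - 1)) - a * τ ^ 2 / 2 * (C6 * a) := by linarith
      _ = τ * (a * (1 + (p - 2) * q - √c2 * √κ * √q - (C4 + K₀ + K1 * K3) * δ))
          + (a * τ ^ 2 / 2 * (2 * q - 1 - C6 * a)) := by ring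
      _ ≤ τ * ((∑ k, (x k)⁻¹) / m).re
          + a * τ ^ 2 / 2 * ((∑ k, (if 2 < ‖(x k)⁻¹‖ then 0 else ((x k)⁻¹) ^ 2)) / m).re := by
        linarith
      _ = _ := by ring
  · refine r4.trans ?_
    apply mul_le_mul_of_nonneg_right _ (by positivity)
    have h4 : 0 ≤ √c2 * √K3 := by positivity
    linarith

end Pool.Agent.H295.BV
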